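import Pool.Agent.TH173.OE.Closed

/-! The bound for 3-graphs on a linearly ordered vertex set. -/

set_option autoImplicit false
open Finset

namespace Pool.Agent.TH173.OE

variable (g : ℕ → ℕ → Bool)

/-- indicator of a triangle -/
def ind (x y z : ℕ) : ℕ := if g x y = true ∧ g x z = true ∧ g y z = true then 1 else 0

theorem both_eq (n x y : ℕ) :
    (if g x y = true then ((Ico (y + 1) n).filter fun z => g x z = true ∧ g y z = true).card else 0)
      = ∑ z ∈ Ico (y + 1) n, ind g x y z := by
  unfold ind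
  split_ifs with h
  · rw [card_filter]
    apply sum_congr rfl
    intro z _
    simp [h]
  · simp [h]

theorem mid_eq (x z : ℕ) :
    (if g x z = true then mid g x z else 0) = ∑ y ∈ Ico (x + 1) z, ind g x y z := by
  unfold ind mid
  split_ifs with h
  · rw [card_filter]
    apply sum_congr rfl
    intro y _
    simp [h]
  · simp [h]

theorem swap (n : ℕ) :
    (∑ y ∈ range n, ∑ x ∈ range y, ∑ z ∈ Ico (y + 1) n, ind g x y z) =
      ∑ z ∈ range n, ∑ x ∈ range z, ∑ y ∈ Ico (x + 1) z, ind g x y z := by
  have e1 := sum_Ico_Ico_comm' 0 n fun x y => ∑ z ∈ Ico (y + 1) n, ind g x y z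
  have e2 := sum_Ico_Ico_comm' 0 n fun x z => ∑ y ∈ Ico (x + 1) z, ind g x y z
  simp only [← range_eq_Ico] at e1 e2
  rw [← e1, ← e2]
  apply sum_congr rfl
  intro x _
  exact sum_Ico_Ico_comm' (x + 1) n fun y z => ind g x y z

/-- the number of triples `x < y < z < n` with `xy` an edge and not both of `xz`, `yz` edges -/
def num (n : ℕ) : ℕ :=
  ∑ y ∈ range n, ∑ x ∈ range y,
    if g x y = true then ((Ico (y + 1) n).filter fun z => ¬ (g x z = true ∧ g y z = true)).card
    else 0

theorem num_le_bnd (n c : ℕ) : num g n ≤ bnd n c := by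
  have h := edge_sum g n c
  have h1 : (∑ t ∈ range n, ∑ u ∈ range t, if g u t = true then n - 1 - t else 0) =
      num g n + ∑ t ∈ range n, ∑ u ∈ range t, if g u t = true then mid g u t else 0 := by
    have h2 : (∑ t ∈ range n, ∑ u ∈ range t, if g u t = true then mid g u t else 0) =
        ∑ y ∈ range n, ∑ x ∈ range y, (if g x y = true then
          ((Ico (y + 1) n).filter fun z => g x z = true ∧ g y z = true).card else 0) := by
      simp only [both_eq, mid_eq]
      exact (swap g n).symm
    rw [h2]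
    unfold num
    rw [← sum_add_distrib]
    apply sum_congr rfl
    intro y _
    rw [← sum_add_distrib]
    apply sum_congr rfl
    intro x _
    split_ifs
    · have := card_filter_add_card_filter_not (s := Ico (y + 1) n)
        (fun z => g x z = true ∧ g y z = true)
      rw [Nat.card_Ico] at this
      omega
    · rfl
  omega

theorem num_le (n : ℕ) : num g n + turan n ≤ n.choose 3 := by
  have h1 := num_le_bnd g n (n / 3)
  have h2 := bnd_turan n
  omega

open scoped Classical in
/-- **Turán's bound for 3-graphs encoded by an ordered graph.** -/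
theorem main {n : ℕ} (G : Fin n → Fin n → Prop) (H : Finset (Finset (Fin n)))
    (h3 : ∀ e ∈ H, e.card = 3)
    (hH : ∀ a b c : Fin n, a < b → b < c → ({a, b, c} : Finset (Fin n)) ∈ H →
      G a b ∧ ¬ (G a c ∧ G b c)) :
    H.card + turan n ≤ n.choose 3 := by
  set g : ℕ → ℕ → Bool := fun x y => decide (∃ (hx : x < n) (hy : y < n), G ⟨x, hx⟩ ⟨y, hy⟩)
    with hg
  have hgG : ∀ a b : Fin n, g a b = true ↔ G a b := by
    intro a b
    simp [hg]
  have hle : H.card ≤ num g n := by
    -- the set of triples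
    set P : Finset (Σ _ : ℕ, Σ _ : ℕ, ℕ) := (range n).sigma fun y => ((range y).filter
      fun x => g x y = true).sigma fun x => (Ico (y + 1) n).filter
        fun z => ¬ (g x z = true ∧ g y z = true) with hP
    have hc : P.card = num g n := by
      rw [hP, card_sigma]
      unfold num
      apply sum_congr rfl
      intro y _
      rw [card_sigma, sum_filter]
    rw [← hc]
    have hn : ∀ p ∈ P, p.2.1 < n ∧ p.1 < n ∧ p.2.2 < n := by
      rintro ⟨y, x, z⟩ hp
      rw [hP] at hp
      simp only [mem_sigma, mem_range, mem_filter, mem_Ico] at hp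
      exact ⟨hp.2.1.1.trans hp.1, hp.1, hp.2.2.1.2⟩
    let F : (Σ _ : ℕ, Σ _ : ℕ, ℕ) → Finset (Fin n) := fun p =>
      if h : p.2.1 < n ∧ p.1 < n ∧ p.2.2 < n then {⟨p.2.1, h.1⟩, ⟨p.1, h.2.1⟩, ⟨p.2.2, h.2.2⟩}
      else ∅
    have hsub : H ⊆ P.image F := by
      intro e he
      obtain ⟨a, b, c, hab, hbc, rfl⟩ : ∃ a b c : Fin n, a < b ∧ b < c ∧ e = {a, b, c} := by
        obtain ⟨x, y, z, hxy, hxz, hyz, rfl⟩ := card_eq_three.1 (h3 e he)
        rcases lt_or_gt_of_ne hxy with h1 | h1 <;> rcases lt_or_gt_of_ne hxz with h2 | h2 <;>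
          rcases lt_or_gt_of_ne hyz with h4 | h4
        · exact ⟨x, y, z, h1, h4, rfl⟩
        · exact ⟨x, z, y, h2, h4, by ext t; simp only [mem_insert, mem_singleton]; tauto⟩
        · exact absurd (h1.trans h4) (not_lt.2 h2.le)
        · exact ⟨z, x, y, h2, h1, by ext t; simp only [mem_insert, mem_singleton]; tauto⟩
        · exact ⟨y, x, z, h1, h2, by ext t; simp only [mem_insert, mem_singleton]; tauto⟩
        · exact absurd (h4.trans h1) (not_lt.2 h2.le)
        · exact ⟨y, z, x, h4, h2, by ext t; simp only [mem_insert, mem_singleton]; tauto⟩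
        · exact ⟨z, y, x, h4, h1, by ext t; simp only [mem_insert, mem_singleton]; tauto⟩
      obtain ⟨h1, h2⟩ := hH a b c hab hbc he
      rw [mem_image]
      refine ⟨⟨(b : ℕ), (a : ℕ), (c : ℕ)⟩, ?_, ?_⟩
      · rw [hP]
        simp only [mem_sigma, mem_range, mem_filter, mem_Ico]
        refine ⟨b.2, ⟨hab, (hgG a b).2 h1⟩, ⟨hbc, c.2⟩, ?_⟩
        rw [hgG a c, hgG b c]
        exact h2
      · simp [F]
    exact (card_le_card hsub).trans card_image_le
  have := num_le g n
  omega

end Pool.Agent.TH173.OE
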