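import Pool.Agent.TH173.OE.Main

/-! The bound for an arbitrary linearly ordered vertex set, and the construction. -/

set_option autoImplicit false
open Finset

namespace Pool.Agent.TH173.OE

theorem exists_sorted {V : Type} [LinearOrder V] {e : Finset V} (he : e.card = 3) :
    ∃ a b c : V, a < b ∧ b < c ∧ e = {a, b, c} := by
  obtain ⟨x, y, z, hxy, hxz, hyz, rfl⟩ := card_eq_three.1 he
  rcases lt_or_gt_of_ne hxy with h1 | h1 <;> rcases lt_or_gt_of_ne hxz with h2 | h2 <;>
    rcases lt_or_gt_of_ne hyz with h4 | h4
  · exact ⟨x, y, z, h1, h4, rfl⟩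
  · exact ⟨x, z, y, h2, h4, by ext t; simp only [mem_insert, mem_singleton]; tauto⟩
  · exact absurd (h1.trans h4) (not_lt.2 h2.le)
  · exact ⟨z, x, y, h2, h1, by ext t; simp only [mem_insert, mem_singleton]; tauto⟩
  · exact ⟨y, x, z, h1, h2, by ext t; simp only [mem_insert, mem_singleton]; tauto⟩
  · exact absurd (h4.trans h1) (not_lt.2 h2.le)
  · exact ⟨y, z, x, h4, h2, by ext t; simp only [mem_insert, mem_singleton]; tauto⟩
  · exact ⟨z, y, x, h4, h1, by ext t; simp only [mem_insert, mem_singleton]; tauto⟩

theorem sorted_inj {V : Type} [LinearOrder V] {a b c a' b' c' : V} (h1 : a < b) (h2 : b < c)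
    (h1' : a' < b') (h2' : b' < c') (h : ({a, b, c} : Finset V) = {a', b', c'}) :
    a = a' ∧ b = b' ∧ c = c' := by
  have ha : a ∈ ({a', b', c'} : Finset V) := by rw [← h]; simp
  have hb : b ∈ ({a', b', c'} : Finset V) := by rw [← h]; simp
  have hc : c ∈ ({a', b', c'} : Finset V) := by rw [← h]; simp
  have ha' : a' ∈ ({a, b, c} : Finset V) := by rw [h]; simp
  have hb' : b' ∈ ({a, b, c} : Finset V) := by rw [h]; simp
  have hc' : c' ∈ ({a, b, c} : Finset V) := by rw [h]; simp
  simp only [mem_insert, mem_singleton] at ha hb hc ha' hb' hc'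
  have h3 := h1.trans h2
  have h3' := h1'.trans h2'
  rcases ha with rfl | rfl | rfl
  · rcases hb with rfl | rfl | rfl
    · exact absurd h1 (lt_irrefl _)
    · rcases hc with rfl | rfl | rfl
      · exact absurd h3 (lt_irrefl _)
      · exact absurd h2 (lt_irrefl _)
      · exact ⟨rfl, rfl, rfl⟩
    · rcases hc with rfl | rfl | rfl
      · exact absurd h3 (lt_irrefl _)
      · exact absurd (h2.trans h2') (lt_irrefl _)
      · exact absurd h2 (lt_irrefl _)
  · rcases ha' with rfl | rfl | rfl
    · exact absurd h1' (lt_irrefl _)
    · exact absurd (h1'.trans h1) (lt_irrefl _)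
    · exact absurd (h1'.trans h3) (lt_irrefl _)
  · rcases ha' with rfl | rfl | rfl
    · exact absurd h3' (lt_irrefl _)
    · exact absurd (h3'.trans h1) (lt_irrefl _)
    · exact absurd (h3'.trans h3) (lt_irrefl _)

open scoped Classical in
/-- the bound for every linearly ordered finite set -/
theorem general {V : Type} [Fintype V] [LinearOrder V] (G : V → V → Prop) (H : Finset (Finset V))
    (h3 : ∀ e ∈ H, e.card = 3)
    (hH : ∀ a b c : V, a < b → b < c → ({a, b, c} : Finset V) ∈ H → G a b ∧ ¬ (G a c ∧ G b c)) :
    H.card + turan (Fintype.card V) ≤ (Fintype.card V).choose 3 := by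
  let e : Fin (Fintype.card V) ≃o V := Fintype.orderIsoFinOfCardEq V rfl
  have h := main (fun a b => G (e a) (e b))
    (H.map (mapEmbedding e.symm.toEquiv.toEmbedding).toEmbedding) ?_ ?_
  · rwa [card_map] at h
  · intro s hs
    obtain ⟨t, ht, rfl⟩ := mem_map.1 hs
    simp [h3 t ht]
  · intro a b c hab hbc hs
    obtain ⟨t, ht, hts⟩ := mem_map.1 hs
    have : t = {e a, e b, e c} := by
      have h1 : t = (t.map e.symm.toEquiv.toEmbedding).map e.toEquiv.toEmbedding := by
        rw [map_map]
        ext x
        simp
      have h2 : t.map e.symm.toEquiv.toEmbedding = {a, b, c} := hts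
      rw [h1, h2]
      simp [map_insert]
    subst this
    exact hH _ _ _ (e.strictMono hab) (e.strictMono hbc) ht

/-! ### the construction -/

/-- the graph of the construction: three consecutive intervals of lengths `a`, `b`, `c`; the first
is a clique and joined to the second, the second is joined to the third -/
def gr (a b : ℕ) (x y : ℕ) : Bool :=
  (decide (x < a) && decide (y < a + b)) || (decide (a ≤ x) && decide (x < a + b) &&
    decide (a + b ≤ y))

theorem row1 (a b c y : ℕ) (hy : y < a) :
    (∑ x ∈ range y, if gr a b x y = true then ((Ico (y + 1) (a + b + c)).filter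
      fun z => ¬ (gr a b x z = true ∧ gr a b y z = true)).card else 0) = y * c := by
  have h : ∀ x ∈ range y, (if gr a b x y = true then ((Ico (y + 1) (a + b + c)).filter
      fun z => ¬ (gr a b x z = true ∧ gr a b y z = true)).card else 0) = c := by
    intro x hx
    rw [mem_range] at hx
    have h1 : gr a b x y = true := by
      simp only [gr, Bool.or_eq_true, Bool.and_eq_true, decide_eq_true_eq]
      omega
    rw [if_pos h1]
    have h2 : ((Ico (y + 1) (a + b + c)).filter
      fun z => ¬ (gr a b x z = true ∧ gr a b y z = true)) = Ico (a + b) (a + b + c) := by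
      ext z
      simp only [mem_filter, mem_Ico, gr, Bool.or_eq_true, Bool.and_eq_true, decide_eq_true_eq]
      omega
    rw [h2, Nat.card_Ico]
    omega
  rw [sum_congr rfl h]
  simp

theorem row2 (a b c y : ℕ) (hy : a ≤ y) (hy' : y < a + b) :
    (∑ x ∈ range y, if gr a b x y = true then ((Ico (y + 1) (a + b + c)).filter
      fun z => ¬ (gr a b x z = true ∧ gr a b y z = true)).card else 0) =
      a * (a + b + c - 1 - y) := by
  have h : ∀ x ∈ range y, (if gr a b x y = true then ((Ico (y + 1) (a + b + c)).filter
      fun z => ¬ (gr a b x z = true ∧ gr a b y z = true)).card else 0) =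
      if x < a then a + b + c - 1 - y else 0 := by
    intro x hx
    rw [mem_range] at hx
    by_cases h0 : x < a
    · have h1 : gr a b x y = true := by
        simp only [gr, Bool.or_eq_true, Bool.and_eq_true, decide_eq_true_eq]
        omega
      rw [if_pos h1, if_pos h0]
      have h2 : ((Ico (y + 1) (a + b + c)).filter
        fun z => ¬ (gr a b x z = true ∧ gr a b y z = true)) = Ico (y + 1) (a + b + c) := by
        ext z
        simp only [mem_filter, mem_Ico, gr, Bool.or_eq_true, Bool.and_eq_true, decide_eq_true_eq]
        omega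
      rw [h2, Nat.card_Ico]
      omega
    · have h1 : ¬ gr a b x y = true := by
        simp only [gr, Bool.or_eq_true, Bool.and_eq_true, decide_eq_true_eq]
        omega
      rw [if_neg h1, if_neg h0]
  rw [sum_congr rfl h, ← sum_filter]
  have h3 : (range y).filter (fun x => x < a) = range a := by
    ext x
    simp only [mem_filter, mem_range]
    omega
  rw [h3]
  simp

theorem row3 (a b c y : ℕ) (hy : a + b ≤ y) (hy' : y < a + b + c) :
    (∑ x ∈ range y, if gr a b x y = true then ((Ico (y + 1) (a + b + c)).filter
      fun z => ¬ (gr a b x z = true ∧ gr a b y z = true)).card else 0) =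
      b * (a + b + c - 1 - y) := by
  have h : ∀ x ∈ range y, (if gr a b x y = true then ((Ico (y + 1) (a + b + c)).filter
      fun z => ¬ (gr a b x z = true ∧ gr a b y z = true)).card else 0) =
      if a ≤ x ∧ x < a + b then a + b + c - 1 - y else 0 := by
    intro x hx
    rw [mem_range] at hx
    by_cases h0 : a ≤ x ∧ x < a + b
    · have h1 : gr a b x y = true := by
        simp only [gr, Bool.or_eq_true, Bool.and_eq_true, decide_eq_true_eq]
        omega
      rw [if_pos h1, if_pos h0]
      have h2 : ((Ico (y + 1) (a + b + c)).filter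
        fun z => ¬ (gr a b x z = true ∧ gr a b y z = true)) = Ico (y + 1) (a + b + c) := by
        ext z
        simp only [mem_filter, mem_Ico, gr, Bool.or_eq_true, Bool.and_eq_true, decide_eq_true_eq]
        omega
      rw [h2, Nat.card_Ico]
      omega
    · have h1 : ¬ gr a b x y = true := by
        simp only [gr, Bool.or_eq_true, Bool.and_eq_true, decide_eq_true_eq]
        omega
      rw [if_neg h1, if_neg h0]
  rw [sum_congr rfl h, ← sum_filter]
  have h3 : (range y).filter (fun x => a ≤ x ∧ x < a + b) = Ico a (a + b) := by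
    ext x
    simp only [mem_filter, mem_range, mem_Ico]
    omega
  rw [h3]
  simp

theorem sum_tail (c k : ℕ) : ∑ j ∈ range k, (k + c - 1 - j) + c.choose 2 = (k + c).choose 2 := by
  induction k with
  | zero => simp
  | succ k ih =>
    rw [sum_range_succ']
    have e : ∀ j ∈ range k, k + 1 + c - 1 - (j + 1) = k + c - 1 - j := by intro j _; omega
    rw [sum_congr rfl e]
    have e2 : (k + 1 + c).choose 2 = (k + c) + (k + c).choose 2 := by
      rw [show k + 1 + c = (k + c) + 1 by ring, Nat.choose_succ_succ' (k + c) 1,
        Nat.choose_one_right]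
    have e3 : k + 1 + c - 1 - 0 = k + c := by omega
    rw [e3, e2]
    linarith

theorem num_gr (a b c : ℕ) : num (gr a b) (a + b + c) + a * c.choose 2 =
    c * a.choose 2 + a * (b + c).choose 2 + b * c.choose 2 := by
  unfold num
  rw [sum_range_add, sum_range_add]
  have h1 : (∑ y ∈ range a, ∑ x ∈ range y, if gr a b x y = true then
      ((Ico (y + 1) (a + b + c)).filter
      fun z => ¬ (gr a b x z = true ∧ gr a b y z = true)).card else 0) = c * a.choose 2 := by
    rw [sum_congr rfl fun y hy => row1 a b c y (mem_range.1 hy), ← sum_mul, sum_range_id,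
      Nat.choose_two_right]
    ring
  have h2 : (∑ y ∈ range b, ∑ x ∈ range (a + y), if gr a b x (a + y) = true then
      ((Ico (a + y + 1) (a + b + c)).filter
      fun z => ¬ (gr a b x z = true ∧ gr a b (a + y) z = true)).card else 0) =
      a * ∑ j ∈ range b, (b + c - 1 - j) := by
    rw [mul_sum]
    apply sum_congr rfl
    intro y hy
    rw [row2 a b c (a + y) (by omega) (by rw [mem_range] at hy; omega)]
    congr 1
    omega
  have h3 : (∑ y ∈ range c, ∑ x ∈ range (a + b + y), if gr a b x (a + b + y) = true then
      ((Ico (a + b + y + 1) (a + b + c)).filter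
      fun z => ¬ (gr a b x z = true ∧ gr a b (a + b + y) z = true)).card else 0) =
      b * ∑ j ∈ range c, (c + 0 - 1 - j) := by
    rw [mul_sum]
    apply sum_congr rfl
    intro y hy
    rw [row3 a b c (a + b + y) (by omega) (by rw [mem_range] at hy; omega)]
    congr 1
    omega
  rw [h1, h2, h3]
  have t1 := sum_tail c b
  have t2 := sum_tail 0 c
  simp only [add_zero, Nat.choose_zero_succ] at t2
  rw [add_zero] at *
  rw [t2, ← t1]
  ring

end Pool.Agent.TH173.OE
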