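import Pool.Agent.TH173.OE.General

/-! The bound is attained for every `n`. -/

set_option autoImplicit false
open Finset

namespace Pool.Agent.TH173.OE

theorem num_balanced (n : ℕ) : num (gr (n / 3) ((n + 1) / 3)) n + turan n = n.choose 3 := by
  obtain ⟨s, r, hr, hs⟩ : ∃ s r, r < 3 ∧ n = 3 * s + r := ⟨n / 3, n % 3, by omega, by omega⟩
  have h1 : n / 3 = s := by omega
  have h2 : n % 3 = r := by omega
  unfold turan
  rw [h1, h2]
  have two : ∀ k : ℕ, 2 * k.choose 2 + k = k * k := by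
    intro k
    rcases Nat.eq_zero_or_pos k with rfl | h
    · simp
    · obtain ⟨j, rfl⟩ := Nat.exists_eq_add_of_le' h
      rw [two_choose]
      ring
  interval_cases r
  · have e1 : (n + 1) / 3 = s := by omega
    rw [e1, if_pos rfl]
    rcases Nat.eq_zero_or_pos s with rfl | hs0
    · have : n = 0 := by omega
      subst this
      decide
    obtain ⟨k, rfl⟩ : ∃ k, s = k + 1 := ⟨s - 1, by omega⟩
    have e := num_gr (k + 1) (k + 1) (k + 1)
    have e0 : k + 1 + (k + 1) + (k + 1) = n := by omega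
    rw [e0] at e
    have e3 : n = 3 * k + 1 + 2 := by omega
    have e4 : 2 * (k + 1) - 1 = 2 * k + 1 := by omega
    have a1 := two (k + 1)
    have a2 := two (k + 1 + (k + 1))
    have a4 := six_choose (3 * k + 1)
    rw [← e3] at a4
    rw [e4, Nat.add_sub_cancel]
    zify at e a1 a2 a4 ⊢
    have e3' : (n : ℤ) = 3 * k + 1 + 2 := by exact_mod_cast e3
    rw [e3'] at a4
    have : (6 : ℤ) ≠ 0 := by norm_num
    apply mul_left_cancel₀ this
    rw [a4]
    linear_combination 6 * e + 3 * ((k : ℤ) + 1) * a1 + 3 * ((k : ℤ) + 1) * a2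
  · have e1 : (n + 1) / 3 = s := by omega
    rw [e1, if_neg (by norm_num), if_pos rfl]
    rcases Nat.eq_zero_or_pos s with rfl | hs0
    · have : n = 1 := by omega
      subst this
      decide
    obtain ⟨k, rfl⟩ : ∃ k, s = k + 1 := ⟨s - 1, by omega⟩
    have e := num_gr (k + 1) (k + 1) (k + 2)
    have e0 : k + 1 + (k + 1) + (k + 2) = n := by omega
    rw [e0] at e
    have e3 : n = 3 * k + 2 + 2 := by omega
    have e4 : 2 * (k + 1) - 1 = 2 * k + 1 := by omega
    have a1 := two (k + 1)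
    have a2 := two (k + 1 + (k + 2))
    have a3 := two (k + 2)
    have a4 := six_choose (3 * k + 2)
    rw [← e3] at a4
    rw [e4]
    zify at e a1 a2 a3 a4 ⊢
    have e3' : (n : ℤ) = 3 * k + 2 + 2 := by exact_mod_cast e3
    rw [e3'] at a4
    have : (6 : ℤ) ≠ 0 := by norm_num
    apply mul_left_cancel₀ this
    rw [a4]
    linear_combination 6 * e + 3 * ((k : ℤ) + 2) * a1 + 3 * ((k : ℤ) + 1) * a2
  · have e1 : (n + 1) / 3 = s + 1 := by omega
    rw [e1, if_neg (by norm_num), if_neg (by norm_num)]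
    rcases Nat.eq_zero_or_pos s with rfl | hs0
    · have : n = 2 := by omega
      subst this
      decide
    obtain ⟨k, rfl⟩ : ∃ k, s = k + 1 := ⟨s - 1, by omega⟩
    have e := num_gr (k + 1) (k + 1 + 1) (k + 2)
    have e0 : k + 1 + (k + 1 + 1) + (k + 2) = n := by omega
    rw [e0] at e
    have e3 : n = 3 * k + 3 + 2 := by omega
    have a1 := two (k + 1)
    have a2 := two (k + 1 + 1 + (k + 2))
    have a3 := two (k + 2)
    have a4 := six_choose (3 * k + 3)
    rw [← e3] at a4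
    zify at e a1 a2 a3 a4 ⊢
    have e3' : (n : ℤ) = 3 * k + 3 + 2 := by exact_mod_cast e3
    rw [e3'] at a4
    have : (6 : ℤ) ≠ 0 := by norm_num
    apply mul_left_cancel₀ this
    rw [a4]
    linear_combination 6 * e + 3 * ((k : ℤ) + 2) * a1 + 3 * ((k : ℤ) + 1) * a2 + 3 * a3

/-- `e` is a triple `a < b < c` such that `ab` is an edge and not both of `ac`, `bc` are -/
def IsH {n : ℕ} (G : Fin n → Fin n → Prop) (e : Finset (Fin n)) : Prop :=
  ∃ a b c : Fin n, a < b ∧ b < c ∧ e = {a, b, c} ∧ G a b ∧ ¬ (G a c ∧ G b c)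

open scoped Classical in
/-- the triples `a < b < c` such that `ab` is an edge and not both of `ac`, `bc` are -/
noncomputable def hset {n : ℕ} (G : Fin n → Fin n → Prop) : Finset (Finset (Fin n)) :=
  Finset.filter (IsH G) ((univ : Finset (Fin n)).powersetCard 3)

theorem mem_hset_iff {n : ℕ} (G : Fin n → Fin n → Prop) (e : Finset (Fin n)) :
    e ∈ hset G ↔ e.card = 3 ∧ IsH G e := by
  classical
  unfold hset
  rw [mem_filter, mem_powersetCard]
  simp

theorem mem_hset {n : ℕ} (G : Fin n → Fin n → Prop) {a b c : Fin n} (hab : a < b) (hbc : b < c) :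
    ({a, b, c} : Finset (Fin n)) ∈ hset G ↔ G a b ∧ ¬ (G a c ∧ G b c) := by
  rw [mem_hset_iff]
  constructor
  · rintro ⟨-, a', b', c', h1, h2, h, h3⟩
    obtain ⟨rfl, rfl, rfl⟩ := sorted_inj hab hbc h1 h2 h
    exact h3
  · intro h
    refine ⟨?_, a, b, c, hab, hbc, rfl, h⟩
    rw [card_eq_three]
    exact ⟨a, b, c, hab.ne, (hab.trans hbc).ne, hbc.ne, rfl⟩

theorem card_of_mem_hset {n : ℕ} (G : Fin n → Fin n → Prop) {e : Finset (Fin n)}
    (he : e ∈ hset G) : e.card = 3 :=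
  ((mem_hset_iff G e).1 he).1

theorem num_le_hset (g : ℕ → ℕ → Bool) (n : ℕ) :
    num g n ≤ (hset (fun a b : Fin n => g a b = true)).card := by
  classical
  set P : Finset (Σ _ : ℕ, Σ _ : ℕ, ℕ) := (range n).sigma fun y => ((range y).filter
    fun x => g x y = true).sigma fun x => (Ico (y + 1) n).filter
      fun z => ¬ (g x z = true ∧ g y z = true) with hP
  have hc : P.card = num g n := by
    rw [hP, card_sigma]
    unfold num
    apply sum_congr rfl
    intro y _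
    rw [card_sigma, sum_filter]
  rw [← hc]
  have hn : ∀ p ∈ P, p.2.1 < n ∧ p.1 < n ∧ p.2.2 < n := by
    rintro ⟨y, x, z⟩ hp
    rw [hP] at hp
    simp only [mem_sigma, mem_range, mem_filter, mem_Ico] at hp
    exact ⟨hp.2.1.1.trans hp.1, hp.1, hp.2.2.1.2⟩
  let F : (Σ _ : ℕ, Σ _ : ℕ, ℕ) → Finset (Fin n) := fun p =>
    if h : p.2.1 < n ∧ p.1 < n ∧ p.2.2 < n then {⟨p.2.1, h.1⟩, ⟨p.1, h.2.1⟩, ⟨p.2.2, h.2.2⟩}
    else ∅
  apply card_le_card_of_injOn F
  · rintro ⟨y, x, z⟩ hp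
    have h := hn _ hp
    have hp' : (⟨y, x, z⟩ : Σ _ : ℕ, Σ _ : ℕ, ℕ) ∈ P := hp
    rw [hP] at hp'
    simp only [mem_sigma, mem_range, mem_filter, mem_Ico] at hp'
    have hF : F ⟨y, x, z⟩ = {⟨x, h.1⟩, ⟨y, h.2.1⟩, ⟨z, h.2.2⟩} := by
      simp only [F]
      rw [dif_pos h]
    rw [hF, Finset.mem_coe, mem_hset]
    · exact ⟨hp'.2.1.2, hp'.2.2.2⟩
    · exact Fin.mk_lt_mk.2 hp'.2.1.1
    · exact Fin.mk_lt_mk.2 hp'.2.2.1.1
  · rintro ⟨y, x, z⟩ hp ⟨y', x', z'⟩ hp2 he
    have h := hn _ hp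
    have h' := hn _ hp2
    have hp' : (⟨y, x, z⟩ : Σ _ : ℕ, Σ _ : ℕ, ℕ) ∈ P := hp
    have hp2' : (⟨y', x', z'⟩ : Σ _ : ℕ, Σ _ : ℕ, ℕ) ∈ P := hp2
    rw [hP] at hp' hp2'
    simp only [mem_sigma, mem_range, mem_filter, mem_Ico] at hp' hp2'
    have hF : F ⟨y, x, z⟩ = {⟨x, h.1⟩, ⟨y, h.2.1⟩, ⟨z, h.2.2⟩} := by
      simp only [F]
      rw [dif_pos h]
    have hF' : F ⟨y', x', z'⟩ = {⟨x', h'.1⟩, ⟨y', h'.2.1⟩, ⟨z', h'.2.2⟩} := by
      simp only [F]
      rw [dif_pos h']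
    rw [hF, hF'] at he
    obtain ⟨q1, q2, q3⟩ := sorted_inj (Fin.mk_lt_mk.2 hp'.2.1.1) (Fin.mk_lt_mk.2 hp'.2.2.1.1)
      (Fin.mk_lt_mk.2 hp2'.2.1.1) (Fin.mk_lt_mk.2 hp2'.2.2.1.1) he
    rw [Fin.mk.injEq] at q1 q2 q3
    subst q1
    subst q2
    subst q3
    rfl

/-- for every `n` there is a graph whose 3-graph has exactly the maximum number of edges -/
theorem sharp (n : ℕ) : (hset (fun a b : Fin n => gr (n / 3) ((n + 1) / 3) a b = true)).card +
    turan n = n.choose 3 := by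
  have h1 := num_le_hset (gr (n / 3) ((n + 1) / 3)) n
  have h2 := num_balanced n
  have h3 := main (fun a b : Fin n => gr (n / 3) ((n + 1) / 3) a b = true)
    (hset (fun a b : Fin n => gr (n / 3) ((n + 1) / 3) a b = true))
    (fun e he => card_of_mem_hset _ he) (fun a b c hab hbc h => (mem_hset _ hab hbc).1 h)
  omega

end Pool.Agent.TH173.OE
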