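import Pool.Agent.TH173.OE.Core

/-! The closed form of the bound: it is the Turán number `C(n,3) - f(n)`. -/

set_option autoImplicit false
open Finset

namespace Pool.Agent.TH173.OE

theorem two_choose (n : ℕ) : 2 * (n + 1).choose 2 = (n + 1) * n := by
  induction n with
  | zero => simp
  | succ n ih =>
    rw [Nat.choose_succ_succ' (n + 1) 1, Nat.choose_one_right, Nat.mul_add, ih]
    ring

theorem six_choose (n : ℕ) : 6 * (n + 2).choose 3 = (n + 2) * (n + 1) * n := by
  induction n with
  | zero => simp
  | succ n ih =>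
    have h := two_choose (n + 1)
    rw [Nat.choose_succ_succ' (n + 2) 2, Nat.mul_add, ih]
    have : 6 * (n + 2).choose 2 = 3 * (2 * (n + 1 + 1).choose 2) := by ring_nf
    rw [this, h]
    ring

theorem tri_eq (x : ℕ) : tri x = (x + 1).choose 2 := by
  have h := two_choose x
  unfold tri
  rw [mul_comm x (x + 1), ← h]
  simp

/-- the first part of the bound -/
def fst (n c : ℕ) : ℕ := ∑ t ∈ range n, ∑ i ∈ range t, min (n - 1 - t) (c - i)

theorem fst_succ (n c : ℕ) :
    fst (n + 1) c = fst n c + ∑ t ∈ range n, min (n - 1 - t) (c - t) := by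
  unfold fst
  rw [sum_range_succ']
  simp only [range_zero, sum_empty, add_zero]
  rw [← sum_add_distrib]
  apply sum_congr rfl
  intro t _
  rw [sum_range_succ]
  have e : n + 1 - 1 - (t + 1) = n - 1 - t := by omega
  rw [e]

theorem sum_sub (n c : ℕ) (h : c + 1 ≤ n) :
    ∑ t ∈ range n, min (n - 1 - t) (c - t) = (c + 1).choose 2 := by
  induction n, h using Nat.le_induction with
  | base =>
    have : ∀ t ∈ range (c + 1), min (c + 1 - 1 - t) (c - t) = c - t := by
      intro t _
      omega
    rw [sum_congr rfl this]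
    clear this
    induction c with
    | zero => simp
    | succ c ih =>
      rw [sum_range_succ']
      have e : ∀ t ∈ range (c + 1), c + 1 - (t + 1) = c - t := by intro t _; omega
      have e3 : (c + 1 + 1).choose 2 = (c + 1) + (c + 1).choose 2 := by
        rw [Nat.choose_succ_succ' (c + 1) 1, Nat.choose_one_right]
      rw [sum_congr rfl e, ih, e3]
      omega
  | succ n hn ih =>
    rw [sum_range_succ, ← ih]
    have : min (n + 1 - 1 - n) (c - n) = 0 := by omega
    rw [this, add_zero]
    apply sum_congr rfl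
    intro t ht
    rw [mem_range] at ht
    omega

theorem fst_base (c : ℕ) : fst (c + 1) c = (c + 1).choose 3 := by
  have h1 : ∀ c : ℕ, fst (c + 1) c = ∑ t ∈ range (c + 1), t * (c - t) := by
    intro c
    unfold fst
    apply sum_congr rfl
    intro t ht
    have : ∀ i ∈ range t, min (c + 1 - 1 - t) (c - i) = c - t := by
      intro i hi
      rw [mem_range] at hi
      omega
    rw [sum_congr rfl this]
    simp
  rw [h1]
  induction c with
  | zero => simp [Nat.choose]
  | succ c ih =>
    rw [sum_range_succ]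
    have e : ∀ t ∈ range (c + 1), t * (c + 1 - t) = t * (c - t) + t := by
      intro t ht
      rw [mem_range] at ht
      obtain ⟨d, rfl⟩ := Nat.exists_eq_add_of_le (Nat.le_of_lt_succ ht)
      have h1 : t + d + 1 - t = d + 1 := by omega
      have h2 : t + d - t = d := by omega
      rw [h1, h2]
      ring
    rw [sum_congr rfl e, sum_add_distrib, ih, Nat.choose_succ_succ' (c + 1) 2]
    have h2 : ∑ t ∈ range (c + 1), t = (c + 1).choose 2 := by
      rw [sum_range_id, Nat.choose_two_right]
    rw [h2]
    simp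
    ring

theorem fst_eq (n c : ℕ) (h : c + 1 ≤ n) :
    fst n c = (c + 1).choose 3 + (n - 1 - c) * (c + 1).choose 2 := by
  induction n, h using Nat.le_induction with
  | base => rw [fst_base]; simp
  | succ n hn ih =>
    rw [fst_succ, ih, sum_sub n c hn]
    have : n + 1 - 1 - c = (n - 1 - c) + 1 := by omega
    rw [this]
    ring

theorem snd_eq (n c : ℕ) : ∑ u ∈ range n, tri (n - 2 - u - c) = (n - c).choose 3 := by
  induction n with
  | zero => simp
  | succ n ih =>
    rw [sum_range_succ']
    have e : ∀ u ∈ range n, tri (n + 1 - 2 - (u + 1) - c) = tri (n - 2 - u - c) := by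
      intro u _
      congr 1
      omega
    rw [sum_congr rfl e, ih]
    rcases Nat.lt_or_ge c n with h | h
    · obtain ⟨d, rfl⟩ := Nat.exists_eq_add_of_lt h
      have h1 : c + d + 1 + 1 - 2 - 0 - c = d := by omega
      have h2 : c + d + 1 - c = d + 1 := by omega
      have h3 : c + d + 1 + 1 - c = d + 1 + 1 := by omega
      rw [h1, h2, h3, tri_eq, Nat.choose_succ_succ' (d + 1) 2]
      ring
    · have h1 : n + 1 - 2 - 0 - c = 0 := by omega
      rw [h1]
      have h2 : n - c = 0 := by omega
      rw [h2]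
      rcases Nat.lt_or_ge n c with h3 | h3
      · have : n + 1 - c = 0 := by omega
        rw [this]
        simp [tri]
      · have : n + 1 - c = 1 := by omega
        rw [this]
        simp [tri, Nat.choose]

theorem bnd_eq (n c : ℕ) (h : c + 1 ≤ n) :
    bnd n c = (c + 1).choose 3 + (n - 1 - c) * (c + 1).choose 2 + (n - c).choose 3 := by
  rw [← fst_eq n c h, ← snd_eq n c]
  rfl

/-- The number of edges of the complement of Turán's construction on `n` vertices. -/
def turan (n : ℕ) : ℕ :=
  if n % 3 = 0 then (n / 3) * (n / 3 - 1) * (2 * (n / 3) - 1)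
  else if n % 3 = 1 then (n / 3) ^ 2 * (2 * (n / 3) - 1)
  else (n / 3) ^ 2 * (2 * (n / 3) + 1)

theorem bnd_turan (n : ℕ) : bnd n (n / 3) + turan n = n.choose 3 := by
  rcases Nat.eq_zero_or_pos n with rfl | hn
  · decide
  rw [bnd_eq n (n / 3) (by omega)]
  obtain ⟨s, r, hr, hs⟩ : ∃ s r, r < 3 ∧ n = 3 * s + r := ⟨n / 3, n % 3, by omega, by omega⟩
  have h1 : n / 3 = s := by omega
  have h2 : n % 3 = r := by omega
  unfold turan
  rw [h1, h2]
  interval_cases r
  · obtain ⟨k, rfl⟩ : ∃ k, s = k + 1 := ⟨s - 1, by omega⟩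
    rw [if_pos rfl]
    have e1 : n - 1 - (k + 1) = 2 * k + 1 := by omega
    have e2 : n - (k + 1) = 2 * k + 2 := by omega
    have e3 : n = 3 * k + 1 + 2 := by omega
    have e4 : 2 * (k + 1) - 1 = 2 * k + 1 := by omega
    rw [e1, e2, e3, e4, Nat.add_sub_cancel]
    have a1 := six_choose k
    have a2 := two_choose (k + 1)
    have a3 := six_choose (2 * k)
    have a4 := six_choose (3 * k + 1)
    rw [show k + 1 + 1 = k + 2 by ring] at a2 ⊢
    zify at a1 a2 a3 a4 ⊢
    have : (6 : ℤ) ≠ 0 := by norm_num
    apply mul_left_cancel₀ this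
    rw [a4]
    linear_combination a1 + 3 * (2 * k + 1) * a2 + a3
  · rw [if_neg (by norm_num), if_pos rfl]
    rcases Nat.eq_zero_or_pos s with rfl | hs0
    · have : n = 1 := by omega
      subst this
      decide
    obtain ⟨k, rfl⟩ : ∃ k, s = k + 1 := ⟨s - 1, by omega⟩
    have e1 : n - 1 - (k + 1) = 2 * k + 2 := by omega
    have e2 : n - (k + 1) = 2 * k + 1 + 2 := by omega
    have e3 : n = 3 * k + 2 + 2 := by omega
    have e4 : 2 * (k + 1) - 1 = 2 * k + 1 := by omega
    rw [e1, e2, e3, e4]
    have a1 := six_choose k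
    have a2 := two_choose (k + 1)
    have a3 := six_choose (2 * k + 1)
    have a4 := six_choose (3 * k + 2)
    rw [show k + 1 + 1 = k + 2 by ring] at a2 ⊢
    zify at a1 a2 a3 a4 ⊢
    have : (6 : ℤ) ≠ 0 := by norm_num
    apply mul_left_cancel₀ this
    rw [a4]
    linear_combination a1 + 3 * (2 * k + 2) * a2 + a3
  · rw [if_neg (by norm_num), if_neg (by norm_num)]
    rcases Nat.eq_zero_or_pos s with rfl | hs0
    · have : n = 2 := by omega
      subst this
      decide
    obtain ⟨k, rfl⟩ : ∃ k, s = k + 1 := ⟨s - 1, by omega⟩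
    have e1 : n - 1 - (k + 1) = 2 * k + 3 := by omega
    have e2 : n - (k + 1) = 2 * k + 2 + 2 := by omega
    have e3 : n = 3 * k + 3 + 2 := by omega
    rw [e1, e2, e3]
    have a1 := six_choose k
    have a2 := two_choose (k + 1)
    have a3 := six_choose (2 * k + 2)
    have a4 := six_choose (3 * k + 3)
    rw [show k + 1 + 1 = k + 2 by ring] at a2 ⊢
    zify at a1 a2 a3 a4 ⊢
    have : (6 : ℤ) ≠ 0 := by norm_num
    apply mul_left_cancel₀ this
    rw [a4]
    linear_combination a1 + 3 * (2 * k + 3) * a2 + a3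

end Pool.Agent.TH173.OE
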