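import Mathlib

/-!
# An exact bound for ordered graphs

For every graph `G` on the ordered set `0 < 1 < ... < n - 1` the number of triples `x < y < z` such
that `xy` is an edge and `xz`, `yz` are not both edges is at most the Turán number.
-/

set_option autoImplicit false
open Finset

namespace Pool.Agent.TH173.OE

variable (G : ℕ → ℕ → Bool)

/-- the number of neighbours of `t` in `[k, t)` -/
def cnt (t k : ℕ) : ℕ := ((Ico k t).filter fun s => G s t = true).card

/-- the number of vertices in `(u, t)` which are not neighbours of `u` -/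
def gap (u t : ℕ) : ℕ := ((Ico (u + 1) t).filter fun s => ¬ G u s = true).card

/-- the number of common neighbours of `u` and `t` between `u` and `t` -/
def mid (u t : ℕ) : ℕ := ((Ico (u + 1) t).filter fun s => G u s = true ∧ G s t = true).card

theorem mid_ge (u t : ℕ) : cnt G t (u + 1) ≤ mid G u t + gap G u t := by
  unfold cnt mid gap
  rw [← card_union_of_disjoint]
  · apply card_le_card
    intro s hs
    simp only [mem_filter, mem_union] at hs ⊢
    by_cases h : G u s = true
    · exact Or.inl ⟨hs.1, h, hs.2⟩
    · exact Or.inr ⟨hs.1, h⟩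
  · rw [disjoint_left]
    intro s h1 h2
    simp only [mem_filter] at h1 h2
    exact h2.2 h1.2.1

theorem cnt_step {t k : ℕ} (hk : k < t) :
    cnt G t k = cnt G t (k + 1) + if G k t = true then 1 else 0 := by
  unfold cnt
  have e : Ico k t = insert k (Ico (k + 1) t) := by
    ext s
    simp only [mem_insert, mem_Ico]
    omega
  rw [e, filter_insert]
  split_ifs with h
  · rw [card_insert_of_notMem]
    simp
  · rfl

theorem gap_step {u t : ℕ} (h : u < t) :
    gap G u (t + 1) = gap G u t + if G u t = true then 0 else 1 := by
  unfold gap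
  have e : Ico (u + 1) (t + 1) = insert t (Ico (u + 1) t) := by
    ext s
    simp only [mem_insert, mem_Ico]
    omega
  rw [e, filter_insert]
  by_cases h1 : G u t = true
  · rw [if_neg (by simp [h1]), if_pos h1, add_zero]
  · rw [if_pos h1, if_neg h1, card_insert_of_notMem]
    simp

/-- the ranks of the neighbours of `t` are `0, 1, ..., cnt - 1` -/
theorem rank_sum (f : ℕ → ℕ) (t : ℕ) : ∀ k ≤ t,
    (∑ u ∈ range k, if G u t = true then f (cnt G t (u + 1)) else 0) +
      ∑ i ∈ range (cnt G t k), f i = ∑ i ∈ range (cnt G t 0), f i := by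
  intro k
  induction k with
  | zero => intro _; simp
  | succ k ih =>
    intro hk
    rw [← ih (by omega), sum_range_succ, cnt_step G (t := t) (k := k) (by omega)]
    split_ifs with h
    · rw [sum_range_succ]
      ring
    · simp

theorem cnt_le (t k : ℕ) : cnt G t k ≤ t := by
  unfold cnt
  refine (card_filter_le _ _).trans ?_
  simp

theorem rank_le (f : ℕ → ℕ) (t : ℕ) :
    (∑ u ∈ range t, if G u t = true then f (cnt G t (u + 1)) else 0) ≤ ∑ i ∈ range t, f i := by
  have h := rank_sum G f t t le_rfl
  have h2 : ∑ i ∈ range (cnt G t 0), f i ≤ ∑ i ∈ range t, f i :=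
    sum_le_sum_of_subset (range_mono (cnt_le G t 0))
  omega

/-- triangular numbers -/
def tri (x : ℕ) : ℕ := x * (x + 1) / 2

theorem tri_succ (x : ℕ) : tri (x + 1) = tri x + (x + 1) := by
  unfold tri
  have : (x + 1) * (x + 1 + 1) = x * (x + 1) + 2 * (x + 1) := by ring
  rw [this, Nat.add_mul_div_left _ _ (by norm_num)]

theorem tri_mono {x y : ℕ} (h : x ≤ y) : tri x ≤ tri y := by
  unfold tri
  exact Nat.div_le_div_right (Nat.mul_le_mul h (by omega))

/-- the net gain of an edge with top vertex `t` and gap `g` -/
def net (n c t g : ℕ) : ℕ := (n - 1 - t) - (c - g)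

theorem pot (n c u : ℕ) : ∀ k t : ℕ, t + k = n → u < t →
    (∑ s ∈ Ico t n, if G u s = true then net n c s (gap G u s) else 0) ≤
      tri (net n c t (gap G u t)) := by
  intro k
  induction k with
  | zero =>
    intro t ht _
    rw [← ht]
    simp
  | succ k ih =>
    intro t ht hu
    have h1 := ih (t + 1) (by omega) (by omega)
    rw [sum_eq_sum_Ico_succ_bot (by omega)]
    rw [gap_step G hu] at h1
    split_ifs with h
    · rw [if_pos h, add_zero] at h1
      unfold net at h1 ⊢
      rcases Nat.eq_zero_or_pos (n - 1 - t - (c - gap G u t)) with h0 | h0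
      · rw [h0]
        have : n - 1 - (t + 1) - (c - gap G u t) = 0 := by omega
        rw [this] at h1
        simpa using h1
      · obtain ⟨x, hx⟩ := Nat.exists_eq_add_of_le' h0
        have : n - 1 - (t + 1) - (c - gap G u t) = x := by omega
        rw [this] at h1
        rw [hx, tri_succ]
        omega
    · rw [if_neg h] at h1
      rw [zero_add]
      refine h1.trans (tri_mono ?_)
      unfold net
      omega

/-- the bound before the closed form -/
def bnd (n c : ℕ) : ℕ :=
  (∑ t ∈ range n, ∑ i ∈ range t, min (n - 1 - t) (c - i)) +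
    ∑ u ∈ range n, tri (n - 2 - u - c)

theorem edge_sum (n c : ℕ) :
    (∑ t ∈ range n, ∑ u ∈ range t, if G u t = true then n - 1 - t else 0) ≤
      (∑ t ∈ range n, ∑ u ∈ range t, if G u t = true then mid G u t else 0) + bnd n c := by
  have h1 : ∀ t ∈ range n, ∀ u ∈ range t, (if G u t = true then n - 1 - t else 0) ≤
      (if G u t = true then mid G u t else 0) +
      (if G u t = true then min (n - 1 - t) (c - cnt G t (u + 1)) else 0) +
      (if G u t = true then net n c t (gap G u t) else 0) := by
    intro t _ u _
    split_ifs with h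
    · have := mid_ge G u t
      unfold net
      omega
    · simp
  have h2 : (∑ t ∈ range n, ∑ u ∈ range t, if G u t = true then
      min (n - 1 - t) (c - cnt G t (u + 1)) else 0) ≤
      ∑ t ∈ range n, ∑ i ∈ range t, min (n - 1 - t) (c - i) :=
    sum_le_sum fun t _ => rank_le G (fun i => min (n - 1 - t) (c - i)) t
  have h3 : (∑ t ∈ range n, ∑ u ∈ range t, if G u t = true then
      net n c t (gap G u t) else 0) ≤ ∑ u ∈ range n, tri (n - 2 - u - c) := by
    have e := sum_Ico_Ico_comm' 0 n fun u t => if G u t = true then net n c t (gap G u t) else 0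
    simp only [← range_eq_Ico] at e
    rw [← e]
    apply sum_le_sum
    intro u hu
    rw [mem_range] at hu
    refine (pot G n c u (n - (u + 1)) (u + 1) (by omega) (by omega)).trans (tri_mono ?_)
    unfold net gap
    simp
    omega
  calc _ ≤ ∑ t ∈ range n, ∑ u ∈ range t, ((if G u t = true then mid G u t else 0) +
        (if G u t = true then min (n - 1 - t) (c - cnt G t (u + 1)) else 0) +
        (if G u t = true then net n c t (gap G u t) else 0)) :=
        sum_le_sum fun t ht => sum_le_sum (h1 t ht)
    _ = (∑ t ∈ range n, ∑ u ∈ range t, if G u t = true then mid G u t else 0) +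
        (∑ t ∈ range n, ∑ u ∈ range t, if G u t = true then
          min (n - 1 - t) (c - cnt G t (u + 1)) else 0) +
        (∑ t ∈ range n, ∑ u ∈ range t, if G u t = true then net n c t (gap G u t) else 0) := by
        simp only [sum_add_distrib]
    _ ≤ _ := by unfold bnd; omega

end Pool.Agent.TH173.OE
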